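import Pool.Agent.Lib.MP_b9add9_lc.Alg2.Proto
import Pool.Agent.Lib.MP_b9add9_lc.Alg.Sim

/-!
# All pairs are separable, a complete pair
-/

namespace ESY.Alg2

open ESY ESY.Conv ESY.Few Set

/-! ### outputs -/

theorem outputs_pre (O : Oracle) (b : Bool) (M : Machine) (x y : List Bool) (t : ℕ) :
    Outputs O (pre b M) x y (t + 1) ↔ Outputs O M (b :: x) y t := by
  have h1 := accepts_pre O b M x [] t
  unfold AcceptsIn at h1
  unfold Outputs
  refine and_congr h1 ?_
  rw [Function.iterate_succ_apply, step_pre_start, iter_emb]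
  rfl

theorem outputs_trues (O : Oracle) (M : Machine) (y : List Bool) (t : ℕ) : ∀ (e : ℕ)
    (x : List Bool), Outputs O (trues M e) x y (t + e) ↔
      Outputs O M (List.replicate e true ++ x) y t := by
  intro e
  induction e with
  | zero => intro x; rfl
  | succ e ih =>
    intro x
    show Outputs O (pre true (trues M e)) x y (t + e + 1) ↔ _
    rw [outputs_pre, ih, List.replicate_succ', List.append_assoc]
    rfl

theorem outputs_pr (O : Oracle) (M : Machine) (x y : List Bool) (t e : ℕ) :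
    Outputs O (pr M e) x y (t + e + 1) ↔
      Outputs O M (List.replicate e true ++ false :: x) y t := by
  unfold pr
  rw [outputs_pre, outputs_trues]

theorem outputs_mono {O : Oracle} {M : Machine} {x y : List Bool} {t t' : ℕ} (ht : t ≤ t')
    (h : Outputs O M x y t) : Outputs O M x y t' := by
  obtain ⟨d, rfl⟩ := Nat.exists_eq_add_of_le ht
  have h1 : step O M ((step O M)^[t] (start M x [])) = (step O M)^[t] (start M x []) :=
    step_halt h.1
  have h2 : (step O M)^[t + d] (start M x []) = (step O M)^[t] (start M x []) := by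
    rw [Nat.add_comm t d, Function.iterate_add_apply, Function.iterate_fixed h1]
  unfold Outputs
  rw [h2]
  exact h

/-- a reduction relative to `O` is a reduction relative to `O ⊕ T` -/
theorem mreduces_join {O T : Oracle} {C D A B : Set (List Bool)}
    (h : MReduces poly O C D A B) : MReduces poly (join O T) C D A B := by
  obtain ⟨M, c, h⟩ := h
  obtain ⟨c', hc'⟩ : PB fun n => 3 * poly c n := pb_mul (pb_const 3) (pb_poly c)
  refine ⟨Alg.lft false M, c', fun x => ?_⟩
  obtain ⟨y, ⟨h1, h2⟩, h3⟩ := h x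
  refine ⟨y, outputs_mono (hc' x.length) ⟨?_, ?_⟩, h3⟩
  · rw [Alg.start_lft, Alg.run3]
    exact (Alg.code_cf _ _).trans ((Alg.codeP_halt _).2 h1)
  · rw [Alg.start_lft, Alg.run3]
    exact (Alg.ss_cast _ 0).trans h2

/-! ### the complete pair -/

/-- the strings that begin with `b` -/
def Hd (b : Bool) : Set (List Bool) := {x | x.head? = some b}

theorem hd_disjoint : Disjoint (Hd true) (Hd false) := by
  refine Set.disjoint_left.2 fun x h1 h2 => ?_
  have h3 : x.head? = some true := h1
  have h4 : x.head? = some false := h2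
  rw [h3] at h4
  exact absurd (Option.some.inj h4) (by decide)

/-- the machine for the strings that begin with `b` -/
def hdCode (b : Bool) : Fin 3 → Instr 2 3 := ![
    .pop 0 2 (if b = true then 2 else 1) (if b = true then 1 else 2), -- 0
    .halt true,          -- 1
    .halt false]         -- 2

theorem hd_accepts (O : Oracle) (b : Bool) (x w : List Bool) (t : ℕ) :
    AcceptsIn O (mk2 (hdCode b)) x w (t + 1) ↔ x ∈ Hd b := by
  unfold AcceptsIn
  rw [start_mk2, Function.iterate_succ_apply]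
  have hs : ∀ (s : Fin 3) (v : Bool) (c d : List Bool), hdCode b s = .halt v →
      (step O (mk2 (hdCode b)))^[t] (Conv.cf (hdCode b) s c d) = Conv.cf (hdCode b) s c d :=
    fun s v c d h => (stay h c d t).1
  have h1 : hdCode b 1 = .halt true := rfl
  have h2 : hdCode b 2 = .halt false := rfl
  rcases x with _ | ⟨c, x⟩
  · have e : step O (mk2 (hdCode b)) (Conv.cf (hdCode b) 0 [] w) = Conv.cf (hdCode b) 2 [] w := by
      cases b <;> rfl
    rw [e, hs 2 false _ _ h2]
    refine ⟨fun h => absurd (Instr.halt.inj (h2.symm.trans h)) (by decide), fun h => absurd h (by simp [Hd])⟩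
  · by_cases hbc : c = b
    · subst hbc
      have e : step O (mk2 (hdCode c)) (Conv.cf (hdCode c) 0 (c :: x) w) = Conv.cf (hdCode c) 1 x w := by
        cases c <;> exact congrArg (Cfg.mk (M := mk2 (hdCode _)) 1) (u0 _ w x)
      rw [e, hs 1 true _ _ h1]
      exact ⟨fun _ => rfl, fun _ => h1⟩
    · have e : step O (mk2 (hdCode b)) (Conv.cf (hdCode b) 0 (c :: x) w) = Conv.cf (hdCode b) 2 x w := by
        cases c <;> cases b
        · exact absurd rfl hbc
        · exact congrArg (Cfg.mk (M := mk2 (hdCode _)) 2) (u0 _ w x)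
        · exact congrArg (Cfg.mk (M := mk2 (hdCode _)) 2) (u0 _ w x)
        · exact absurd rfl hbc
      rw [e, hs 2 false _ _ h2]
      refine ⟨fun h => absurd (Instr.halt.inj (h2.symm.trans h)) (by decide), fun h => ?_⟩
      exact absurd (Option.some.inj (show some c = some b from h)) hbc

theorem hd_np (O : Oracle) (b : Bool) : InNP O (Hd b) := by
  refine ⟨mk2 (hdCode b), 1, fun x => ?_⟩
  have h : poly 1 x.length = x.length + 1 := by simp [poly]
  rw [h]
  exact ⟨fun hx => ⟨[], by simp, (hd_accepts O b x [] _).2 hx⟩,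
    fun ⟨w, _, hw⟩ => (hd_accepts O b x w _).1 hw⟩

theorem hd_pair (O : Oracle) : NPPair O (Hd true) (Hd false) :=
  ⟨hd_np O true, hd_np O false, hd_disjoint⟩

/-! ### separation and reduction -/

variable {X g : Oracle} {a b m : ℕ}

/-- number of rounds -/
noncomputable def NN (X g : Oracle) (a b m : ℕ) (q : List Bool) : ℕ :=
  Jv (pm X g a b m q 0) + Rv (pm X g a b m q 0)

theorem NN_bound (X g : Oracle) (a b m : ℕ) : ∃ c, ∀ q : List Bool,
    16 * NN X g a b m q + 20 + a + 1 + b + 1 + m + 1 ≤ poly c q.length := by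
  have h1 : ∀ e : ℕ, PB fun n => poly (nu e.div2).2 n + 1 + (e.div2 + 1 + n) := fun e =>
    pb_add (pb_add (pb_poly _) (pb_const _)) (pb_add (pb_const _) pb_id)
  obtain ⟨c, hc⟩ := pb_add (pb_add (pb_mul (pb_const 16) (pb_add (pb_add (h1 a) (h1 b))
    (pb_mul (h1 a) (pb_add (h1 b) (pb_const 1))))) (pb_const 20))
    (pb_const (a + 1 + b + 1 + m + 1))
  refine ⟨c, fun q => ?_⟩
  have h2 := hc q.length
  have h3 : ∀ e : ℕ, ln e q = poly (nu e.div2).2 q.length + 1 + (e.div2 + 1 + q.length) :=
    fun e => stmt_length _ _ _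
  simp only at h2
  rw [← h3, ← h3] at h2
  refine le_trans (le_of_eq ?_) h2
  simp only [NN, Jv, Rv, pm]
  ring

theorem F_lt {q : List Bool} : ∀ i < NN X g a b m q, OO X g (true :: true :: false ::
    tp (hist (OO X g) (vv a b m q) i) (false :: vv a b m q)) = false := by
  intro i hi
  refine (val_F (X := X) (g := g) (a := a) (b := b) (m := m) (q := q) i).trans ?_
  refine decide_eq_false ?_
  unfold NN at hi
  omega

theorem F_eq {q : List Bool} : OO X g (true :: true :: false ::
    tp (hist (OO X g) (vv a b m q) (NN X g a b m q)) (false :: vv a b m q)) = true := by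
  refine (val_F (X := X) (g := g) (a := a) (b := b) (m := m) (q := q) _).trans ?_
  exact decide_eq_true le_rfl

/-- the result of the protocol -/
noncomputable def res (X g : Oracle) (a b m : ℕ) (q : List Bool) : Bool :=
  OO X g (true :: false :: true :: tp (hist (OO X g) (vv a b m q) (NN X g a b m q))
    (false :: vv a b m q))

theorem res_spec (hg : g ∈ cnd m)
    (hd : ∀ g' ∈ cnd m, ∀ q, ¬ (Tq X g' a q ∧ Tq X g' b q)) (q : List Bool) :
    (Tq X g a q → res X g a b m q = true) ∧ (Tq X g b q → res X g a b m q = false) :=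
  proto hg hd q

theorem res_inP (hF : SpecFolD) : InP (OO X g) {q | res X g a b m q = true} := by
  obtain ⟨c, hc⟩ := NN_bound X g a b m
  refine ⟨pr (pr (pr (fol false) a) b) m, c, fun q => ?_⟩
  obtain ⟨t, ht⟩ : ∃ t, poly c q.length = t + a + 1 + b + 1 + m + 1 :=
    ⟨poly c q.length - (a + 1 + b + 1 + m + 1), by have := hc q; omega⟩
  have h1 := hc q
  rw [ht]
  rw [accepts_pr, accepts_pr, accepts_pr]
  exact (hF _ _ (NN X g a b m q) t F_lt F_eq (by omega)).symm

theorem res_outputs (hF : SpecFolO) : ∃ (M : Machine) (c : ℕ), ∀ q : List Bool,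
    ∃ z, Outputs (OO X g) M q (res X g a b m q :: z) (poly c q.length) := by
  obtain ⟨c, hc⟩ := NN_bound X g a b m
  refine ⟨pr (pr (pr (fol true) a) b) m, c, fun q => ?_⟩
  obtain ⟨t, ht⟩ : ∃ t, poly c q.length = t + a + 1 + b + 1 + m + 1 :=
    ⟨poly c q.length - (a + 1 + b + 1 + m + 1), by have := hc q; omega⟩
  have h1 := hc q
  rw [ht]
  obtain ⟨z, hz⟩ := hF (OO X g) (vv a b m q) (NN X g a b m q) t F_lt F_eq (by omega)
  refine ⟨z, ?_⟩
  rw [outputs_pr, outputs_pr, outputs_pr]
  exact hz

/-- **Separation.** -/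
theorem separable (hF : SpecFolD) (hg : g ∈ cnd m)
    (hd : ∀ g' ∈ cnd m, ∀ q, ¬ (Tq X g' a q ∧ Tq X g' b q)) {C D : Set (List Bool)}
    (hC : ∀ q, q ∈ C ↔ Tq X g a q) (hD : ∀ q, q ∈ D ↔ Tq X g b q) :
    ∃ E, C ⊆ E ∧ Disjoint D E ∧ InP (OO X g) E := by
  refine ⟨_, fun q hq => (res_spec hg hd q).1 ((hC q).1 hq), ?_, res_inP (a := a) (b := b)
    (m := m) hF⟩
  refine Set.disjoint_left.2 fun q hq h => ?_
  have h1 : res X g a b m q = true := h
  rw [(res_spec hg hd q).2 ((hD q).1 hq)] at h1
  exact absurd h1 (by decide)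

/-- **Reduction.** -/
theorem reducible (hF : SpecFolO) (hg : g ∈ cnd m)
    (hd : ∀ g' ∈ cnd m, ∀ q, ¬ (Tq X g' a q ∧ Tq X g' b q)) {C D : Set (List Bool)}
    (hC : ∀ q, q ∈ C ↔ Tq X g a q) (hD : ∀ q, q ∈ D ↔ Tq X g b q) :
    MReduces poly (OO X g) C D (Hd true) (Hd false) := by
  obtain ⟨M, c, h⟩ := res_outputs (X := X) (g := g) (a := a) (b := b) (m := m) hF
  refine ⟨M, c, fun q => ?_⟩
  obtain ⟨z, hz⟩ := h q
  refine ⟨_, hz, fun hq => ?_, fun hq => ?_⟩
  · rw [(res_spec hg hd q).1 ((hC q).1 hq)]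
    rfl
  · rw [(res_spec hg hd q).2 ((hD q).1 hq)]
    rfl

end ESY.Alg2
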