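import Pool.Agent.Lib.MP_b9add9_lc.Alg2.Pair
import Pool.Agent.Lib.MP_80aaf5_lc.Few.Space
import Pool.Agent.Lib.MP_80aaf5_lc.Growth

/-!
# The hard language; generic oracles
-/

namespace ESY.Alg2

open ESY ESY.Conv ESY.Few Set Topology Filter

/-! ### the test language -/

/-- the test language -/
def LL (g : Oracle) : Set (List Bool) :=
  {x | ∃ w : List Bool, w.length = x.length ∧ g (tc w x) = true}

variable (X : Oracle)

theorem val_test (g : Oracle) (w x : List Bool) :
    OO X g (true :: false :: false :: tc w x) = true ↔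
      w.length = x.length ∧ g (tc w x) = true := by
  change KK X (false :: false :: tc w x) g = true ↔ _
  rw [KK_eq]
  simp only [body]
  by_cases h : w.length = x.length
  · rw [if_pos ⟨w, x, h, rfl⟩]
    exact ⟨fun h' => ⟨h, h'⟩, fun h' => h'.2⟩
  · rw [if_neg]
    · exact ⟨fun h' => absurd h' (by decide), fun h' => absurd h'.1 h⟩
    · rintro ⟨w', x', h', e⟩
      obtain ⟨rfl, rfl⟩ := tc_inj e
      exact h h'

theorem ll_np (g : Oracle) : InNP (OO X g) (LL g) := by
  obtain ⟨c, hc⟩ : PB fun n => 3 * n + 8 := pb_add (pb_mul (pb_const 3) pb_id) (pb_const 8)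
  refine ⟨mk2 (vmCode false false), c, fun x => ?_⟩
  have h1 : 3 * x.length + 8 ≤ poly c x.length := hc x.length
  constructor
  · rintro ⟨w, hw, hg⟩
    exact ⟨w, by omega, (vm_accepts_of_le _ _ _ _ _ _ (by omega)).2
      ((val_test X g w x).2 ⟨hw, hg⟩)⟩
  · rintro ⟨w, -, h⟩
    exact ⟨w, (val_test X g w x).1 (vm_sound _ _ _ _ _ _ h)⟩

theorem ll_np_join (g S : Oracle) : InNP (join (OO X g) S) (LL g) := by
  obtain ⟨c, hc⟩ : PB fun n => 3 * (3 * n + 8) :=
    pb_mul (pb_const 3) (pb_add (pb_mul (pb_const 3) pb_id) (pb_const 8))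
  refine ⟨Alg.lft false (mk2 (vmCode false false)), c, fun x => ?_⟩
  have h1 : 3 * (3 * x.length + 8) ≤ poly c x.length := hc x.length
  constructor
  · rintro ⟨w, hw, hg⟩
    refine ⟨w, by omega, accepts_mono _ _ _ _ h1 ((Alg.accepts_lft _ _ _ _ _).2
      ((vm_accepts_of_le _ _ _ _ _ _ (by omega)).2 ((val_test X g w x).2 ⟨hw, hg⟩)))⟩
  · rintro ⟨w, -, h⟩
    have h2 := (Alg.accepts_lft _ _ _ _ _).1 (accepts_mono _ _ _ _
      (show poly c x.length ≤ 3 * poly c x.length by omega) h)
    exact ⟨w, (val_test X g w x).1 (vm_sound _ _ _ _ _ _ h2)⟩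

/-! ### clopen conditions -/

theorem open_agree (g₀ : Oracle) (N : ℕ) :
    IsOpen {g : Oracle | ∀ s : List Bool, s.length ≤ N → g s = g₀ s} := by
  have h : {g : Oracle | ∀ s : List Bool, s.length ≤ N → g s = g₀ s} =
      ⋂ s ∈ {s : List Bool | s.length ≤ N}, {g | g s = g₀ s} := by
    ext g
    simp only [mem_ofPred_eq, mem_iInter]
  rw [h]
  refine (List.finite_length_le Bool N).isOpen_biInter fun s _ => ?_
  exact IsOpen.preimage (f := fun g : Oracle => g s) (continuous_apply s)
    (isOpen_discrete ({g₀ s} : Set Bool))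

theorem clopen_lc {φ : Oracle → Bool} (h : φ ∈ Lc) : IsClopen {g | φ g = true} := by
  obtain ⟨-, N, hN⟩ := h
  refine clopen_of_local fun g₀ => ⟨_, open_agree g₀ N, fun s _ => rfl, fun g hg => ?_⟩
  rw [hN g g₀ hg]

theorem clopen_ll (x : List Bool) : IsClopen {g | x ∈ LL g} := by
  have h1 : {g | x ∈ LL g} = ⋃ w ∈ {w : List Bool | w.length = x.length},
      {g : Oracle | g (tc w x) = true} := by
    ext g
    simp only [LL, mem_ofPred_eq, mem_iUnion, exists_prop]
  rw [h1]
  refine Set.Finite.isClopen_biUnion ?_ fun w _ => clopen_lc (lc_coord _)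
  exact (List.finite_length_le Bool x.length).subset fun w hw => le_of_eq hw

/-- nondeterministic acceptance -/
def NAcc (i : Bool) (M : Machine) (T : ℕ → ℕ) (g : Oracle) (x : List Bool) : Prop :=
  ∃ w : List Bool, w.length ≤ T x.length ∧ AcceptsIn (AA X i g) M x w (T x.length)

theorem clopen_nacc (i : Bool) (M : Machine) (T : ℕ → ℕ) (x : List Bool) :
    IsClopen {g | NAcc X i M T g x} := by
  have h3 : {g | NAcc X i M T g x} = ⋃ w ∈ {w : List Bool | w.length ≤ T x.length},
      {g | AcceptsIn (AA X i g) M x w (T x.length)} := by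
    ext y
    simp only [NAcc, mem_ofPred_eq, mem_iUnion, exists_prop]
  rw [h3]
  exact (List.finite_length_le Bool _).isClopen_biUnion fun w _ =>
    clopen_accepts fun s _ => clopen_lc (AA_mem X i s)

/-- the requirement: `M` does not accept the complement of the test language -/
def Req (i : Bool) (M : Machine) (T : ℕ → ℕ) : Set Oracle :=
  {g | ∃ x, ¬ (x ∉ LL g ↔ NAcc X i M T g x)}

theorem open_req (i : Bool) (M : Machine) (T : ℕ → ℕ) : IsOpen (Req X i M T) := by
  have h : Req X i M T = ⋃ x, (({g | x ∈ LL g}ᶜ ∩ {g | NAcc X i M T g x}ᶜ) ∪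
      ({g | x ∈ LL g} ∩ {g | NAcc X i M T g x})) := by
    ext g
    simp only [Req, mem_ofPred_eq, mem_iUnion, mem_union, mem_inter_iff, mem_compl_iff]
    refine exists_congr fun x => ?_
    tauto
  rw [h]
  exact isOpen_iUnion fun x => (((clopen_ll x).compl.inter (clopen_nacc X i M T x).compl).union
    ((clopen_ll x).inter (clopen_nacc X i M T x))).2

/-! ### plants -/

/-- the oracle with the plant `p` -/
noncomputable def plt (g₀ : Oracle) (n : ℕ) (p : List.Vector Bool n → Bool) : Oracle :=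
  Function.extend (fun w : List.Vector Bool n => tc w.1 (List.replicate n false)) p g₀

theorem tc_injective (n : ℕ) : Function.Injective
    (fun w : List.Vector Bool n => tc w.1 (List.replicate n false)) := by
  intro w w' h
  exact Subtype.ext (tc_inj h).1

theorem plt_self {g₀ : Oracle} {n : ℕ} (p : List.Vector Bool n → Bool) (w : List.Vector Bool n) :
    plt g₀ n p (tc w.1 (List.replicate n false)) = p w :=
  (tc_injective n).extend_apply p g₀ w

theorem plt_short {g₀ : Oracle} {n : ℕ} (p : List.Vector Bool n → Bool) {s : List Bool}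
    (hs : s.length ≤ n) : plt g₀ n p s = g₀ s := by
  refine Function.extend_apply' _ _ _ ?_
  rintro ⟨w, rfl⟩
  rw [tc_length, List.length_replicate] at hs
  omega

variable {X}

theorem dense_req (e : Bool) (M : Machine) {T : ℕ → ℕ} (hT : Sub T) : Dense (Req X e M T) := by
  classical
  rw [dense_iff_inter_open]
  rintro U hU ⟨g₀, hg₀⟩
  obtain ⟨I, u, h1, h2⟩ := isOpen_pi_iff.1 hU g₀ hg₀
  have hN : ∀ g : Oracle, (∀ s : List Bool, s.length ≤ I.sup List.length → g s = g₀ s) →
      g ∈ U := by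
    intro g hg
    refine h2 fun i hi => ?_
    rw [hg i (Finset.le_sup (Finset.mem_coe.1 hi))]
    exact (h1 i (Finset.mem_coe.1 hi)).2
  obtain ⟨n, hn1, hn2⟩ := ((sub_add hT (sub_const 1) 1).and
    (eventually_ge_atTop (I.sup List.length))).exists
  simp only [pow_one] at hn1
  by_contra hcon
  have hf : ∀ g ∈ U, ∀ x, x ∉ LL g ↔ NAcc X e M T g x := by
    intro g hg x
    by_contra hx
    exact hcon ⟨g, hg, x, hx⟩
  have hU' : ∀ g : Oracle, (∀ s : List Bool, s.length ≤ n → g s = g₀ s) → g ∈ U :=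
    fun g hg => hN g fun s hs => hg s (hs.trans hn2)
  have hl : (List.replicate n false).length = n := List.length_replicate
  have h3 : List.replicate n false ∉ LL (plt g₀ n fun _ => false) := by
    rintro ⟨w, hw, h⟩
    rw [hl] at hw
    rw [plt_self (g₀ := g₀) (fun _ => false) ⟨w, hw⟩] at h
    exact absurd h (by decide)
  obtain ⟨w₀, hw₀, hacc⟩ := (hf (plt g₀ n fun _ => false)
    (hU' _ fun s hs => plt_short _ hs) _).1 h3
  rw [hl] at hw₀ hacc
  have hk := asked_card (AA X e (plt g₀ n fun _ => false)) M (T n)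
    (start M (List.replicate n false) w₀)
  obtain ⟨p, p', hne, hpp⟩ := Fintype.exists_ne_map_eq_of_card_lt
    (fun (p : List.Vector Bool n → Bool) (i : Fin (T n)) =>
      if h : i.1 < (asked (AA X e (plt g₀ n fun _ => false)) M (T n)
        (start M (List.replicate n false) w₀)).length then
      AA X e (plt g₀ n p) (asked (AA X e (plt g₀ n fun _ => false)) M (T n)
        (start M (List.replicate n false) w₀))[i.1] else false) (by
    rw [Fintype.card_fun, Fintype.card_fun, Fintype.card_bool, Fintype.card_fin, card_vector,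
      Fintype.card_bool]
    exact Nat.pow_lt_pow_right (by norm_num) (by omega))
  obtain ⟨w, hw⟩ := Function.ne_iff.1 hne
  have hstar : ∀ s : List Bool, s.length ≤ n →
      sum3 (plt g₀ n fun _ => false) (plt g₀ n p) (plt g₀ n p') s = g₀ s := by
    intro s hs
    unfold sum3
    rw [plt_short _ hs, plt_short _ hs, plt_short _ hs]
    exact x3_same _ _
  refine (hf _ (hU' _ hstar) (List.replicate n false)).2 ?_ ?_
  · refine ⟨w₀, by rw [hl]; exact hw₀, ?_⟩
    rw [hl]
    refine (accepts_congr (O := AA X e (plt g₀ n fun _ => false)) fun s hs => ?_).2 hacc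
    obtain ⟨i, hi, rfl⟩ := List.getElem_of_mem hs
    have h4 := congrFun hpp ⟨i, by omega⟩
    simp only [hi, dif_pos] at h4
    refine ((AA_mem X e _).1 _ _ _).trans ?_
    simp only
    rw [h4]
    exact x3_same _ _
  · refine ⟨w.1, by rw [hl]; exact w.2, ?_⟩
    unfold sum3
    rw [plt_self, plt_self, plt_self]
    revert hw
    cases p w <;> cases p' w <;> simp [x3]

variable (X)

/-! ### pairs -/

/-- the pair is not disjoint -/
def Meet (a b : ℕ) : Set Oracle := {g | ∃ q, Tq X g a q ∧ Tq X g b q}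

theorem open_meet (a b : ℕ) : IsOpen (Meet X a b) := by
  have h0 : ∀ e q, IsClopen {g | Tq X g e q} := fun e q =>
    clopen_tr fun s _ => clopen_lc (AA_mem X e.bodd s)
  have h1 : Meet X a b = ⋃ q, ({g | Tq X g a q} ∩ {g | Tq X g b q}) := by
    ext y
    simp only [Meet, mem_ofPred_eq, mem_iUnion, mem_inter_iff]
  rw [h1]
  exact isOpen_iUnion fun q => ((h0 _ _).inter (h0 _ _)).2

theorem dense_or {S : Set Oracle} : Dense (S ∪ interior Sᶜ) := by
  rw [dense_iff_inter_open]
  intro U hU hne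
  by_cases h : (U ∩ S).Nonempty
  · obtain ⟨g, h1, h2⟩ := h
    exact ⟨g, h1, Or.inl h2⟩
  · obtain ⟨g, hg⟩ := hne
    refine ⟨g, hg, Or.inr (interior_maximal ?_ hU hg)⟩
    intro g' hg' hS
    exact h ⟨g', hg', hS⟩

/-- generic oracles exist -/
theorem exists_generic (T : ℕ → ℕ → ℕ) (hT : Subexponential T) : ∃ g : Oracle,
    (∀ i M c, g ∈ Req X i M (T c)) ∧ ∀ a b, g ∈ Meet X a b ∨
      ∃ m, g ∈ cnd m ∧ ∀ g' ∈ cnd m, ∀ q, ¬ (Tq X g' a q ∧ Tq X g' b q) := by
  let F : (Bool × Machine × ℕ) ⊕ (ℕ × ℕ) → Set Oracle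
    | .inl (i, M, c) => Req X i M (T c)
    | .inr (a, b) => Meet X a b ∪ interior (Meet X a b)ᶜ
  have hF : Dense (⋂ i, F i) := by
    refine dense_iInter_of_isOpen (fun i => ?_) fun i => ?_
    · rcases i with ⟨i, M, c⟩ | ⟨a, b⟩
      · exact open_req X i M (T c)
      · exact (open_meet X a b).union isOpen_interior
    · rcases i with ⟨i, M, c⟩ | ⟨a, b⟩
      · exact dense_req i M (hT c)
      · exact dense_or
  obtain ⟨g, hg⟩ := hF.nonempty
  rw [mem_iInter] at hg
  refine ⟨g, fun i M c => hg (.inl (i, M, c)), fun a b => ?_⟩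
  rcases hg (.inr (a, b)) with h | h
  · exact Or.inl h
  · right
    obtain ⟨I, u, h1, h2⟩ := isOpen_pi_iff.1 isOpen_interior g h
    obtain ⟨m, hm⟩ := exists_cnd g (I.sup List.length)
    refine ⟨m, ?_, fun g' hg' q hq => ?_⟩
    · rw [hm]
      exact fun s _ => rfl
    · rw [hm] at hg'
      have h3 : g' ∈ interior (Meet X a b)ᶜ := by
        refine h2 fun i hi => ?_
        rw [hg' i (Finset.le_sup (Finset.mem_coe.1 hi))]
        exact (h1 i (Finset.mem_coe.1 hi)).2
      exact interior_subset h3 ⟨q, hq⟩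

end ESY.Alg2
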