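import Pool.Agent.Lib.MP_b9add9_lc.Alg.Defs

/-!
# The algebraic extension of an oracle in characteristic two
-/

namespace ESY

/-- The algebraic extension of the oracle `A` in characteristic `2`: the multilinear extension of
`A` over all the rings `(ℤ/2)[X]/(f)`, in particular over all the fields with `2 ^ k` elements.
It answers the queries of `ext A` with `q = 1` (that is, over `ℤ/2`). -/
noncomputable def ext2 (A : Oracle) (s : List Bool) : Bool :=
  match nums s with
  | 1 :: _ => ext A s
  | _ => false

/-- The algebraic oracle over `A` in characteristic `2`: `A` together with its algebraic
extension in characteristic `2`. -/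
noncomputable def alg2 (A : Oracle) : Oracle := join A (ext2 A)

end ESY
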