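import Pool.Agent.Lib.MP_80aaf5_lc.helper83.Red
import Pool.Agent.Lib.MP_b9add9_lc.Uni.Defs

/-!
# The protocol machine: statement

The machine works on the string `e` on stack `0`, first `false :: v`, then `tp h (false :: v)`,
`h` the answers obtained so far (the last one first). In each round it asks
`true :: true :: false :: e` (is the protocol finished?). If the answer is no, it asks
`true :: true :: true :: e` and puts `true ::` answer `:: ` in front of `e`. If the answer is yes,
it asks `true :: false :: true :: e`; with `m = false` it halts with this answer, with `m = true`
it puts this answer on stack `0` and halts with the answer `true`.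
-/

namespace ESY.Alg2

open ESY ESY.Conv

/-- mark the bits of `h` and put them in front of `a` -/
def tp : List Bool → List Bool → List Bool
  | [], a => a
  | b :: h, a => true :: b :: tp h a

/-- the answers of the protocol (the last one first) -/
def hist (O : Oracle) (v : List Bool) : ℕ → List Bool
  | 0 => []
  | i + 1 => O (true :: true :: true :: tp (hist O v i) (false :: v)) :: hist O v i

/-- the code of the machine -/
def folCode (m : Bool) : Fin 33 → Instr 2 33 := ![
    .push 0 false 1,     -- 0   the string `e = false :: v`
    .push 0 false 2,     -- 1   the question: finished?
    .push 0 true 3,      -- 2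
    .push 0 true 4,      -- 3
    .query 0 5 21,       -- 4
    .pop 0 6 6 6,        -- 5   no: remove three bits
    .pop 0 7 7 7,        -- 6
    .pop 0 8 8 8,        -- 7
    .push 0 true 9,      -- 8   the next question
    .push 0 true 10,     -- 9
    .push 0 true 11,     -- 10
    .query 0 12 16,      -- 11
    .pop 0 13 13 13,     -- 12  answer no
    .pop 0 14 14 14,     -- 13
    .pop 0 15 15 15,     -- 14
    .push 0 false 20,    -- 15
    .pop 0 17 17 17,     -- 16  answer yes
    .pop 0 18 18 18,     -- 17
    .pop 0 19 19 19,     -- 18
    .push 0 true 20,     -- 19
    .push 0 true 1,      -- 20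
    .pop 0 22 22 22,     -- 21  finished: remove three bits
    .pop 0 23 23 23,     -- 22
    .pop 0 24 24 24,     -- 23
    .push 0 true 25,     -- 24  the question for the result
    .push 0 false 26,    -- 25
    .push 0 true 27,     -- 26
    .query 0 29 28,      -- 27
    (if m = true then .push 0 true 30 else .halt true),    -- 28
    (if m = true then .push 0 false 30 else .halt false),  -- 29
    .halt true,          -- 30
    .halt true,          -- 31 (not used)
    .halt true]          -- 32 (not used)

/-- the machine -/
def fol (m : Bool) : Machine := mk2 (folCode m)

/-- The decision machine: `N` is the number of rounds. -/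
def SpecFolD : Prop := ∀ (O : Oracle) (v : List Bool) (N T : ℕ),
  (∀ i < N, O (true :: true :: false :: tp (hist O v i) (false :: v)) = false) →
  O (true :: true :: false :: tp (hist O v N) (false :: v)) = true → 16 * N + 20 ≤ T →
  (AcceptsIn O (fol false) v [] T ↔
    O (true :: false :: true :: tp (hist O v N) (false :: v)) = true)

/-- The machine with output. -/
def SpecFolO : Prop := ∀ (O : Oracle) (v : List Bool) (N T : ℕ),
  (∀ i < N, O (true :: true :: false :: tp (hist O v i) (false :: v)) = false) →
  O (true :: true :: false :: tp (hist O v N) (false :: v)) = true → 16 * N + 20 ≤ T →
  ∃ z, Outputs O (fol true) v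
    (O (true :: false :: true :: tp (hist O v N) (false :: v)) :: z) T

end ESY.Alg2
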