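import Pool.Agent.Lib.MP_80aaf5_lc.Defs

/-!
# Protocols with affine questions over the field with two elements
-/

namespace ESY.Alg2

open ESY Set

/-- the exclusive or of three bits -/
def x3 (a b c : Bool) : Bool := xor (xor a b) c

theorem x3_cancel (p a b : Bool) : x3 (x3 p a b) a b = p := by
  cases p <;> cases a <;> cases b <;> rfl

theorem x3_cancel' (p a b : Bool) : x3 (x3 p a b) p a = b := by
  cases p <;> cases a <;> cases b <;> rfl

theorem x3_same (a b : Bool) : x3 a b b = a := by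
  cases a <;> cases b <;> rfl

theorem x3_same' (a b : Bool) : x3 a a b = b := by
  cases a <;> cases b <;> rfl

/-- the sum of three oracles -/
def sum3 (f g h : Oracle) : Oracle := fun s => x3 (f s) (g s) (h s)

/-- affine functions -/
def Aff (φ : Oracle → Bool) : Prop := ∀ f g h, φ (sum3 f g h) = x3 (φ f) (φ g) (φ h)

/-- affine sets -/
def ASet (H : Set Oracle) : Prop := ∀ f ∈ H, ∀ g ∈ H, ∀ h ∈ H, sum3 f g h ∈ H

theorem halving {t : ℕ} {P Q : Set (Fin t → Bool)} (hPQ : P ⊆ Q) (hne : P ≠ Q) (hP : P.Nonempty)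
    (hPa : ∀ f ∈ P, ∀ g ∈ P, ∀ h ∈ P, (fun i => x3 (f i) (g i) (h i)) ∈ P)
    (hQa : ∀ f ∈ Q, ∀ g ∈ Q, ∀ h ∈ Q, (fun i => x3 (f i) (g i) (h i)) ∈ Q) :
    2 * P.ncard ≤ Q.ncard := by
  obtain ⟨p₀, hp₀⟩ := hP
  obtain ⟨q₀, hq₀, hq₀'⟩ : ∃ q ∈ Q, q ∉ P := by
    by_contra hcon
    push Not at hcon
    exact hne (Subset.antisymm hPQ hcon)
  have h1 : P.ncard ≤ (Q \ P).ncard := by
    refine ncard_le_ncard_of_injOn (fun p i => x3 (p i) (p₀ i) (q₀ i)) ?_ ?_ (toFinite _)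
    · intro p hp
      refine ⟨hQa p (hPQ hp) p₀ (hPQ hp₀) q₀ hq₀, fun hmem => hq₀' ?_⟩
      have h2 := hPa _ hmem p hp p₀ hp₀
      have h3 : (fun i => x3 (x3 (p i) (p₀ i) (q₀ i)) (p i) (p₀ i)) = q₀ :=
        funext fun i => x3_cancel' _ _ _
      rwa [h3] at h2
    · intro p _ p' _ h
      funext i
      have h2 := congrFun h i
      simp only at h2
      rw [← x3_cancel (p i) (p₀ i) (q₀ i), h2, x3_cancel]
  have h2 := ncard_sdiff_add_ncard_of_subset hPQ (toFinite _)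
  omega

section tree

variable (𝓛 : Set (Oracle → Bool)) (U V : Set Oracle)

/-- a protocol with `n` questions of `𝓛` separates `U` and `V` on `H` -/
def Dec : ℕ → Set Oracle → Prop
  | 0, H => (∀ g ∈ H, g ∉ U) ∨ ∀ g ∈ H, g ∉ V
  | n + 1, H => ∃ φ ∈ 𝓛, ∀ b : Bool, Dec n {g | g ∈ H ∧ φ g = b}

variable {𝓛 U V}

theorem Dec.mono_set {n : ℕ} : ∀ {H H' : Set Oracle}, H' ⊆ H → Dec 𝓛 U V n H →
    Dec 𝓛 U V n H' := by
  induction n with
  | zero =>
    rintro H H' hs (h | h)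
    · exact Or.inl fun g hg => h g (hs hg)
    · exact Or.inr fun g hg => h g (hs hg)
  | succ n ih =>
    rintro H H' hs ⟨φ, hφ, h⟩
    refine ⟨φ, hφ, fun b => ih ?_ (h b)⟩
    intro g hg
    exact ⟨hs hg.1, hg.2⟩

theorem Dec.succ (hc : (fun _ => false) ∈ 𝓛) {n : ℕ} : ∀ {H : Set Oracle}, Dec 𝓛 U V n H →
    Dec 𝓛 U V (n + 1) H := by
  induction n with
  | zero =>
    intro H h
    refine ⟨_, hc, fun b => Dec.mono_set (H := H) ?_ h⟩
    intro g hg
    exact hg.1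
  | succ n ih =>
    rintro H ⟨φ, hφ, h⟩
    exact ⟨φ, hφ, fun b => ih (h b)⟩

theorem Dec.mono (hc : (fun _ => false) ∈ 𝓛) {n n' : ℕ} (hn : n ≤ n') {H : Set Oracle}
    (h : Dec 𝓛 U V n H) : Dec 𝓛 U V n' H := by
  induction n', hn using Nat.le_induction with
  | base => exact h
  | succ m _ ih => exact ih.succ hc

theorem Dec.vec {s : ℕ} : ∀ (σ : Fin s → Oracle → Bool), (∀ i, σ i ∈ 𝓛) → ∀ {H : Set Oracle}
    {n : ℕ}, (∀ u : Fin s → Bool, Dec 𝓛 U V n {g | g ∈ H ∧ ∀ i, σ i g = u i}) →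
    Dec 𝓛 U V (n + s) H := by
  induction s with
  | zero =>
    intro σ _ H n h
    refine Dec.mono_set ?_ (h fun i => i.elim0)
    intro g hg
    exact ⟨hg, fun i => i.elim0⟩
  | succ s ih =>
    intro σ hσ H n h
    refine ⟨σ 0, hσ 0, fun b => ih (fun i => σ i.succ) (fun i => hσ _) fun u => ?_⟩
    refine Dec.mono_set ?_ (h (Fin.cons b u))
    rintro g ⟨⟨hg, hb⟩, hu⟩
    exact ⟨hg, Fin.cases hb hu⟩

/-- **Separation by affine protocols.** -/
theorem dec_main {s t : ℕ} {H₀ : Set Oracle} (h𝓛 : ∀ φ ∈ 𝓛, Aff φ)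
    (hc : (fun _ => false) ∈ 𝓛) (hH₀ : ASet H₀) (hd : ∀ g ∈ H₀, g ∈ U → g ∉ V)
    (hU : ∀ g ∈ U, ∃ σ : Fin s → Oracle → Bool, (∀ i, σ i ∈ 𝓛) ∧
      ∀ g', (∀ i, σ i g' = σ i g) → g' ∈ U)
    (hV : ∀ g ∈ V, ∃ τ : Fin t → Oracle → Bool, (∀ i, τ i ∈ 𝓛) ∧
      ∀ g', (∀ i, τ i g' = τ i g) → g' ∈ V) : Dec 𝓛 U V (s * (t + 1)) H₀ := by
  -- the induction
  have key : ∀ (k : ℕ) (H : Set Oracle), H ⊆ H₀ → ASet H →
      (∀ g ∈ H, g ∈ V → ∃ τ : Fin t → Oracle → Bool, (∀ i, τ i ∈ 𝓛) ∧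
        (∀ g', (∀ i, τ i g' = τ i g) → g' ∈ V) ∧
        ((fun g i => τ i g) '' H).ncard ≤ 2 ^ k) → Dec 𝓛 U V (s * (k + 1)) H := by
    intro k
    induction k with
    | zero =>
      intro H hs hH hτ
      refine Dec.mono hc (Nat.zero_le _) ?_
      by_contra hcon
      simp only [Dec, not_or, not_forall, not_not] at hcon
      obtain ⟨⟨g₁, hg₁, hU₁⟩, g, hg, hVg⟩ := hcon
      obtain ⟨τ, -, h2, h3⟩ := hτ g hg hVg
      rw [pow_zero, ncard_le_one_iff_subsingleton] at h3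
      have h4 := h3 (mem_image_of_mem _ hg₁) (mem_image_of_mem _ hg)
      exact hd g₁ (hs hg₁) hU₁ (h2 g₁ fun i => congrFun h4 i)
    | succ k ih =>
      intro H hs hH hτ
      by_cases h0 : (∀ g ∈ H, g ∉ U) ∨ ∀ g ∈ H, g ∉ V
      · exact Dec.mono hc (Nat.zero_le _) h0
      · rw [not_or] at h0
        obtain ⟨h0, -⟩ := h0
        push Not at h0
        obtain ⟨g₁, hg₁, hU₁⟩ := h0
        obtain ⟨σ, hσ, hσU⟩ := hU g₁ hU₁
        rw [show s * (k + 1 + 1) = s * (k + 1) + s by ring]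
        refine Dec.vec σ hσ fun u => ?_
        have hsub : {g | g ∈ H ∧ ∀ i, σ i g = u i} ⊆ H := fun g hg => hg.1
        have haff : ASet {g | g ∈ H ∧ ∀ i, σ i g = u i} := by
          rintro f ⟨hf, hf'⟩ g ⟨hg, hg'⟩ h ⟨hh, hh'⟩
          refine ⟨hH f hf g hg h hh, fun i => ?_⟩
          rw [h𝓛 _ (hσ i), hf', hg', hh']
          exact x3_same _ _
        refine ih _ (hsub.trans hs) haff ?_
        rintro g ⟨hg, hgu⟩ hVg
        obtain ⟨τ, h1, h2, h3⟩ := hτ g hg hVg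
        refine ⟨τ, h1, h2, ?_⟩
        have hia : ∀ S : Set Oracle, ASet S → ∀ f ∈ (fun g i => τ i g) '' S,
            ∀ g ∈ (fun g i => τ i g) '' S, ∀ h ∈ (fun g i => τ i g) '' S,
            (fun i => x3 (f i) (g i) (h i)) ∈ (fun g i => τ i g) '' S := by
          rintro S hS _ ⟨f, hf, rfl⟩ _ ⟨g, hg, rfl⟩ _ ⟨h, hh, rfl⟩
          exact ⟨sum3 f g h, hS f hf g hg h hh, funext fun i => h𝓛 _ (h1 i) f g h⟩
        have hne : (fun g i => τ i g) '' {g | g ∈ H ∧ ∀ i, σ i g = u i} ≠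
            (fun g i => τ i g) '' H := by
          intro heq
          have h4 : (fun i => τ i g₁) ∈ (fun g i => τ i g) '' {g | g ∈ H ∧ ∀ i, σ i g = u i} := by
            rw [heq]
            exact mem_image_of_mem _ hg₁
          obtain ⟨h, ⟨hh, hhu⟩, hh2⟩ := h4
          have h5 : sum3 g₁ h g ∈ H := hH _ hg₁ _ hh _ hg
          refine hd _ (hs h5) (hσU _ fun i => ?_) (h2 _ fun i => ?_)
          · rw [h𝓛 _ (hσ i), hhu, hgu]
            exact x3_same _ _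
          · rw [h𝓛 _ (h1 i), show τ i h = τ i g₁ from congrFun hh2 i]
            exact x3_same' _ _
        have h6 := halving (image_mono hsub) hne ⟨_, mem_image_of_mem _ ⟨hg, hgu⟩⟩
          (hia _ haff) (hia _ hH)
        rw [pow_succ] at h3
        omega
  refine key t H₀ subset_rfl hH₀ fun g _ hVg => ?_
  obtain ⟨τ, h1, h2⟩ := hV g hVg
  refine ⟨τ, h1, h2, (ncard_le_ncard (subset_univ _) (toFinite _)).trans ?_⟩
  rw [ncard_univ, Nat.card_eq_fintype_card, Fintype.card_fun, Fintype.card_bool, Fintype.card_fin]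

open Classical in
/-- the next question -/
noncomputable def nx (𝓛 : Set (Oracle → Bool)) (U V : Set Oracle) (n : ℕ) (H : Set Oracle) :
    Oracle → Bool :=
  if h : ∃ φ ∈ 𝓛, ∀ b : Bool, Dec 𝓛 U V n {g | g ∈ H ∧ φ g = b} then h.choose
  else fun _ => false

theorem nx_mem (hc : (fun _ => false) ∈ 𝓛) (n : ℕ) (H : Set Oracle) : nx 𝓛 U V n H ∈ 𝓛 := by
  unfold nx
  split_ifs with h
  · exact h.choose_spec.1
  · exact hc

theorem nx_dec {n : ℕ} {H : Set Oracle} (h : Dec 𝓛 U V (n + 1) H) (b : Bool) :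
    Dec 𝓛 U V n {g | g ∈ H ∧ nx 𝓛 U V n H g = b} := by
  have h' : ∃ φ ∈ 𝓛, ∀ b : Bool, Dec 𝓛 U V n {g | g ∈ H ∧ φ g = b} := h
  unfold nx
  rw [dif_pos h']
  exact h'.choose_spec.2 b

/-- the oracles that are compatible with the answers `h` (the last one first) in the protocol
with `R` questions -/
noncomputable def stt (𝓛 : Set (Oracle → Bool)) (U V : Set Oracle) (R : ℕ) (H₀ : Set Oracle) :
    List Bool → Set Oracle
  | [] => H₀
  | b :: h => {g | g ∈ stt 𝓛 U V R H₀ h ∧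
      nx 𝓛 U V (R - h.length - 1) (stt 𝓛 U V R H₀ h) g = b}

theorem stt_dec {R : ℕ} {H₀ : Set Oracle} (h0 : Dec 𝓛 U V R H₀) : ∀ h : List Bool,
    h.length ≤ R → Dec 𝓛 U V (R - h.length) (stt 𝓛 U V R H₀ h)
  | [], _ => h0
  | b :: h, hl => by
    rw [List.length_cons] at hl
    have h1 := stt_dec h0 h (by omega)
    rw [show R - h.length = (R - h.length - 1) + 1 by omega] at h1
    rw [List.length_cons, show R - (h.length + 1) = R - h.length - 1 by omega]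
    exact nx_dec h1 b

/-- the result of the protocol -/
theorem stt_out {R : ℕ} {H₀ : Set Oracle} (h0 : Dec 𝓛 U V R H₀) {h : List Bool}
    (hl : h.length = R) {g : Oracle} (hg : g ∈ stt 𝓛 U V R H₀ h) :
    (g ∈ U → ∃ g' ∈ stt 𝓛 U V R H₀ h, g' ∈ U) ∧ (g ∈ V → ¬ ∃ g' ∈ stt 𝓛 U V R H₀ h, g' ∈ U) := by
  refine ⟨fun hU => ⟨g, hg, hU⟩, fun hV => ?_⟩
  rintro ⟨g', hg', hU⟩
  have h1 := stt_dec h0 h hl.le
  rw [hl, Nat.sub_self] at h1
  rcases h1 with h1 | h1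
  · exact h1 g' hg' hU
  · exact h1 g hg hV

end tree

end ESY.Alg2
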