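import Pool.Agent.Lib.MP_b9add9_lc.Alg2.Defs
import Pool.Agent.Lib.MP_b9add9_lc.Alg2.Tree
import Pool.Agent.Lib.MP_b9add9_lc.Alg.Lin

/-!
# The algebraic extension in characteristic two is affine
-/

namespace ESY.Alg2

open ESY Polynomial

theorem ml_add' {R : Type} [CommRing R] : ∀ (l : List R) (A A₀ A₁ A₂ : Oracle),
    (∀ s : List Bool, ((A s).toNat : R) = (A₀ s).toNat + (A₁ s).toNat + (A₂ s).toNat) →
    ml A l = ml A₀ l + ml A₁ l + ml A₂ l
  | [], A, A₀, A₁, A₂, h => by
    rw [ml, ml, ml, ml, h]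
  | r :: l, A, A₀, A₁, A₂, h => by
    rw [ml, ml, ml, ml, ml_add' l _ _ _ _ fun s => h (false :: s),
      ml_add' l _ _ _ _ fun s => h (true :: s)]
    ring

theorem cast_x3 {R : Type} [CommRing R] (h : (2 : R) = 0) (a b c : Bool) :
    ((x3 a b c).toNat : R) = a.toNat + b.toNat + c.toNat := by
  have h' : (1 : R) + 1 = 0 := by
    rw [one_add_one_eq_two]
    exact h
  cases a <;> cases b <;> cases c <;> simp [x3, h']

theorem testBit_add : ∀ (a b c : ZMod 2) (j : ℕ), (a + b + c).val.testBit j =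
    x3 (a.val.testBit j) (b.val.testBit j) (c.val.testBit j) := by
  intro a b c j
  have h : ∀ z : ZMod 2, z.val.testBit j = (decide (j = 0) && decide (z = 1)) := by
    intro z
    have hz : z = 0 ∨ z = 1 := by
      revert z
      decide
    rcases hz with rfl | rfl
    · have h0 : (ZMod.val (0 : ZMod 2)) = 0 := rfl
      rw [h0, Nat.zero_testBit]
      simp
    · have h1 : (ZMod.val (1 : ZMod 2)) = 1 := rfl
      rw [h1]
      rcases j with _ | j
      · rfl
      · rw [Nat.testBit_succ]
        simp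
  rw [h, h, h, h]
  by_cases hj : j = 0
  · simp only [hj, decide_true, Bool.true_and]
    revert a b c
    decide
  · simp [hj, x3]

theorem ext_sum3 {s : List Bool} (f g h : Oracle) {l : List ℕ} (hs : nums s = 1 :: l) :
    ext (sum3 f g h) s = x3 (ext f s) (ext g s) (ext h s) := by
  have h2 : (2 : (ZMod (1 + 1))[X]) = 0 := by
    have h3 : (2 : ZMod (1 + 1)) = 0 := rfl
    calc (2 : (ZMod (1 + 1))[X]) = C 2 :=
        (map_ofNat (C : ZMod (1 + 1) →+* (ZMod (1 + 1))[X]) 2).symm
      _ = 0 := by rw [h3, C_0]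
  unfold ext
  rw [hs]
  rcases l with _ | ⟨k, _ | ⟨l, _ | ⟨j, r⟩⟩⟩
  · rfl
  · rfl
  · rfl
  · simp only
    rw [ml_add' _ (sum3 f g h) f g h fun s => cast_x3 h2 _ _ _, Polynomial.add_modByMonic,
      Polynomial.add_modByMonic, coeff_add, coeff_add]
    exact testBit_add _ _ _ _

theorem ext2_sum3 (f g h : Oracle) (s : List Bool) :
    ext2 (sum3 f g h) s = x3 (ext2 f s) (ext2 g s) (ext2 h s) := by
  unfold ext2
  split
  · rename_i l hl
    exact ext_sum3 f g h hl
  · rfl

theorem alg2_sum3 (f g h : Oracle) (s : List Bool) :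
    alg2 (sum3 f g h) s = x3 (alg2 f s) (alg2 g s) (alg2 h s) := by
  match s with
  | [] => rfl
  | false :: s => rfl
  | true :: s => exact ext2_sum3 f g h s

theorem ext2_congr {A A' : Oracle} {s : List Bool} (h : Few.Agree s.length A A') :
    ext2 A s = ext2 A' s := by
  unfold ext2
  split
  · exact ext_congr h
  · rfl

theorem alg2_congr {A A' : Oracle} {s : List Bool} (h : Few.Agree s.length A A') :
    alg2 A s = alg2 A' s := by
  match s, h with
  | [], _ => rfl
  | false :: s, h => exact h s (by rw [List.length_cons]; omega)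
  | true :: s, h => exact ext2_congr (h.mono (by rw [List.length_cons]; omega))

end ESY.Alg2
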