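import Pool.Agent.Lib.MP_b9add9_lc.Alg2.World

/-!
# The protocols are correct
-/

namespace ESY.Alg2

open ESY ESY.Conv ESY.Few Set

variable (X : Oracle)

theorem mem_US {e : ℕ} {q : List Bool} {g : Oracle} :
    g ∈ US X (KK X) e q ↔ Tq X g e q := Iff.rfl

theorem cert {e : ℕ} {q : List Bool} {g : Oracle} (hg : g ∈ US X (KK X) e q) :
    ∃ σ : Fin (ln e q) → Oracle → Bool, (∀ i, σ i ∈ Lc) ∧
      ∀ g', (∀ i, σ i g' = σ i g) → g' ∈ US X (KK X) e q := by
  obtain ⟨w, hw, hacc⟩ := hg
  have hl := asked_card (AA X e.bodd g) (nu e.div2).1 (tb e.div2 q) (start (nu e.div2).1 q w)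
  have ht : tb e.div2 q < ln e q := tb_lt_stm e.div2 q
  refine ⟨fun i => if h : i.1 <
      (asked (AA X e.bodd g) (nu e.div2).1 (tb e.div2 q) (start (nu e.div2).1 q w)).length
    then fun g' => AA X e.bodd g'
      (asked (AA X e.bodd g) (nu e.div2).1 (tb e.div2 q) (start (nu e.div2).1 q w))[i.1]
    else fun _ => false, fun i => ?_, fun g' h => ⟨w, hw, ?_⟩⟩
  · simp only
    split_ifs with h
    · exact AA_mem X _ _
    · exact lc_const false
  · refine (accepts_congr (O := AA X e.bodd g) (O' := AA X e.bodd g') fun s hs => ?_).2 hacc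
    obtain ⟨i, hi, rfl⟩ := List.getElem_of_mem hs
    have h1 := h ⟨i, by omega⟩
    simp only [hi, dif_pos] at h1
    exact h1

/-- the parameters at round `i` -/
noncomputable def pm (g : Oracle) (a b m : ℕ) (q : List Bool) (i : ℕ) : Prm :=
  ⟨a, b, m, q, hist (OO X g) (vv a b m q) i⟩

theorem hist_length (O : Oracle) (v : List Bool) (i : ℕ) : (hist O v i).length = i := by
  induction i with
  | zero => rfl
  | succ i ih => rw [hist, List.length_cons, ih]

variable {X} {g : Oracle} {a b m : ℕ} {q : List Bool}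

theorem val_F (i : ℕ) : OO X g (true :: true :: false :: enc (pm X g a b m q i)) =
    decide (Jv (pm X g a b m q 0) + Rv (pm X g a b m q 0) ≤ i) := by
  change KK X (true :: false :: enc (pm X g a b m q i)) g = _
  rw [KK_eq]
  simp only [body, rd_enc]
  rw [show (pm X g a b m q i).h.length = i from hist_length _ _ i]
  rfl

theorem val_D (i : ℕ) : OO X g (true :: true :: true :: enc (pm X g a b m q i)) =
    if Jv (pm X g a b m q 0) ≤ i then
      nx Lc (US X (KK X) a q) (US X (KK X) b q) (Rv (pm X g a b m q 0) -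
        (i - Jv (pm X g a b m q 0)) - 1) (sp X (KK X) (pm X g a b m q i)) g
    else false := by
  change KK X (true :: true :: enc (pm X g a b m q i)) g = _
  rw [KK_eq]
  simp only [body, rd_enc]
  rw [show (pm X g a b m q i).h.length = i from hist_length _ _ i]
  by_cases h : Jv (pm X g a b m q 0) ≤ i
  · rw [if_pos h]
    exact congrFun (if_pos h) g
  · rw [if_neg h]
    exact congrFun (if_neg h) g

open Classical in
theorem val_Out (i : ℕ) : OO X g (true :: false :: true :: enc (pm X g a b m q i)) =
    if Jv (pm X g a b m q 0) ≤ i then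
      decide (∃ g' ∈ sp X (KK X) (pm X g a b m q i), g' ∈ US X (KK X) a q)
    else false := by
  change KK X (false :: true :: enc (pm X g a b m q i)) g = _
  rw [KK_eq]
  simp only [body, rd_enc]
  rw [show (pm X g a b m q i).h.length = i from hist_length _ _ i]
  by_cases h : Jv (pm X g a b m q 0) ≤ i
  · rw [if_pos h]
    exact congrFun (if_pos h) g
  · rw [if_neg h]
    exact congrFun (if_neg h) g

theorem sp_eq (k : ℕ) : sp X (KK X) (pm X g a b m q (Jv (pm X g a b m q 0) + k)) =
    stt Lc (US X (KK X) a q) (US X (KK X) b q) (Rv (pm X g a b m q 0)) (cnd m)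
      ((hist (OO X g) (vv a b m q) (Jv (pm X g a b m q 0) + k)).take k) := by
  have h1 : (pm X g a b m q (Jv (pm X g a b m q 0) + k)).h.length -
      Jv (pm X g a b m q (Jv (pm X g a b m q 0) + k)) = k := by
    rw [show (pm X g a b m q (Jv (pm X g a b m q 0) + k)).h.length =
      Jv (pm X g a b m q 0) + k from hist_length _ _ _]
    exact Nat.add_sub_cancel_left _ _
  unfold sp
  rw [h1]
  rfl

theorem mem_sp (hg : g ∈ cnd m) (k : ℕ) :
    g ∈ sp X (KK X) (pm X g a b m q (Jv (pm X g a b m q 0) + k)) := by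
  induction k with
  | zero =>
    rw [sp_eq]
    exact hg
  | succ k ih =>
    have h1 := val_D (X := X) (g := g) (a := a) (b := b) (m := m) (q := q)
      (Jv (pm X g a b m q 0) + k)
    rw [if_pos (Nat.le_add_right _ _), Nat.add_sub_cancel_left, sp_eq] at h1
    rw [sp_eq] at ih ⊢
    rw [← Nat.add_assoc, hist, List.take_succ_cons]
    have h2 : ((hist (OO X g) (vv a b m q) (Jv (pm X g a b m q 0) + k)).take k).length = k := by
      rw [List.length_take, hist_length]
      omega
    refine ⟨ih, ?_⟩
    rw [h2]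
    exact h1.symm

/-- the pair is separated by the protocol -/
theorem proto (hg : g ∈ cnd m)
    (hd : ∀ g' ∈ cnd m, ∀ q, ¬ (Tq X g' a q ∧ Tq X g' b q)) (q : List Bool) :
    (Tq X g a q → OO X g (true :: false :: true :: enc (pm X g a b m q
      (Jv (pm X g a b m q 0) + Rv (pm X g a b m q 0)))) = true) ∧
    (Tq X g b q → OO X g (true :: false :: true :: enc (pm X g a b m q
      (Jv (pm X g a b m q 0) + Rv (pm X g a b m q 0)))) = false) := by
  classical
  have hD : Dec Lc (US X (KK X) a q) (US X (KK X) b q) (Rv (pm X g a b m q 0)) (cnd m) := by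
    refine dec_main (fun φ hφ => hφ.1) (lc_const false) (cnd_aff m) ?_ (fun g hg => cert X hg)
      fun g hg => cert X hg
    intro g' hg' h1 h2
    exact hd g' hg' q ⟨h1, h2⟩
  have h1 := mem_sp (X := X) (a := a) (b := b) (q := q) hg (Rv (pm X g a b m q 0))
  rw [sp_eq] at h1
  have h2 : ((hist (OO X g) (vv a b m q) (Jv (pm X g a b m q 0) +
      Rv (pm X g a b m q 0))).take (Rv (pm X g a b m q 0))).length = Rv (pm X g a b m q 0) := by
    rw [List.length_take, hist_length]
    omega
  have h3 := stt_out hD h2 h1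
  rw [val_Out, if_pos (Nat.le_add_right _ _), sp_eq]
  exact ⟨fun h => decide_eq_true (h3.1 h), fun h => decide_eq_false (h3.2 h)⟩

end ESY.Alg2
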