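import Pool.Agent.Lib.MP_b9add9_lc.Alg2.FolSpec
import Pool.Agent.Lib.MP_b9add9_lc.Alg2.Lin
import Pool.Agent.Lib.MP_80aaf5_lc.Few.World

/-!
# The oracle with the protocols
-/

namespace ESY.Alg2

open ESY ESY.Conv ESY.Few Set

/-! ### codes -/

theorem tp_append (h : List Bool) (b : Bool) (a : List Bool) :
    tp (h ++ [b]) a = tp h (true :: b :: a) := by
  induction h with
  | nil => rfl
  | cons c h ih => rw [List.cons_append, tp, tp, ih]

theorem app_tp (w : List Bool) : ∀ a : List Bool, app w a = tp w.reverse a := by
  induction w with
  | nil => intro a; rfl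
  | cons b w ih =>
    intro a
    rw [app, ih, List.reverse_cons, tp_append]

theorem tp_inj : ∀ {h h' x x' : List Bool}, tp h (false :: x) = tp h' (false :: x') →
    h = h' ∧ x = x'
  | [], [], x, x', e => ⟨rfl, (List.cons.inj e).2⟩
  | [], b :: h', x, x', e => absurd (List.cons.inj e).1 (by decide)
  | b :: h, [], x, x', e => absurd (List.cons.inj e).1 (by decide)
  | b :: h, b' :: h', x, x', e => by
    have e1 := (List.cons.inj e).2
    obtain ⟨e2, e3⟩ := List.cons.inj e1
    obtain ⟨e4, e5⟩ := tp_inj e3
    exact ⟨by rw [e2, e4], e5⟩

theorem tp_length (h a : List Bool) : (tp h a).length = 2 * h.length + a.length := by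
  induction h with
  | nil => simp [tp]
  | cons b h ih =>
    rw [tp, List.length_cons, List.length_cons, ih, List.length_cons]
    ring

/-- the parameters of a protocol question: the pair of machines `a`, `b`, the condition `m`, the
input `q`, the previous answers `h` -/
structure Prm : Type where
  a : ℕ
  b : ℕ
  m : ℕ
  q : List Bool
  h : List Bool

/-- the name of a protocol -/
def vv (a b m : ℕ) (q : List Bool) : List Bool :=
  List.replicate a true ++ false :: (List.replicate b true ++ false ::
    (List.replicate m true ++ false :: q))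

/-- the string of the parameters -/
def enc (p : Prm) : List Bool := tp p.h (false :: vv p.a p.b p.m p.q)

theorem rep_inj {a a' : ℕ} {x x' : List Bool}
    (h : List.replicate a true ++ false :: x = List.replicate a' true ++ false :: x') :
    a = a' ∧ x = x' := by
  induction a generalizing a' with
  | zero =>
    rcases a' with _ | a'
    · exact ⟨rfl, (List.cons.inj h).2⟩
    · exact absurd (List.cons.inj h).1 (by decide)
  | succ a ih =>
    rcases a' with _ | a'
    · exact absurd (List.cons.inj h).1 (by decide)
    · obtain ⟨h1, h2⟩ := ih (List.cons.inj h).2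
      exact ⟨by rw [h1], h2⟩

theorem enc_inj {p p' : Prm} (h : enc p = enc p') : p = p' := by
  obtain ⟨h1, h2⟩ := tp_inj h
  obtain ⟨h3, h4⟩ := rep_inj h2
  obtain ⟨h5, h6⟩ := rep_inj h4
  obtain ⟨h7, h8⟩ := rep_inj h6
  cases p
  cases p'
  simp only at h1 h3 h5 h7 h8
  subst h1 h3 h5 h7 h8
  rfl

open Classical in
/-- decoding -/
noncomputable def rd (e : List Bool) : Option Prm :=
  if h : ∃ p, e = enc p then some h.choose else none

theorem rd_enc (p : Prm) : rd (enc p) = some p := by
  have h : ∃ p', enc p = enc p' := ⟨p, rfl⟩
  unfold rd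
  rw [dif_pos h, ← enc_inj h.choose_spec]

theorem rd_some {e : List Bool} {p : Prm} (h : rd e = some p) : e = enc p := by
  unfold rd at h
  split_ifs at h with h1
  rw [← Option.some.inj h]
  exact h1.choose_spec

/-- the test strings -/
def tc (w x : List Bool) : List Bool := true :: false :: app w (false :: x)

theorem tc_inj {w w' x x' : List Bool} (h : tc w x = tc w' x') : w = w' ∧ x = x' := by
  have h1 := (List.cons.inj (List.cons.inj h).2).2
  rw [app_tp, app_tp] at h1
  obtain ⟨h2, h3⟩ := tp_inj h1
  exact ⟨List.reverse_injective h2, h3⟩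

theorem tc_length (w x : List Bool) : (tc w x).length = 2 * w.length + x.length + 3 := by
  rw [tc, List.length_cons, List.length_cons, app_tp, tp_length, List.length_reverse,
    List.length_cons]
  ring

/-! ### finite conditions -/

/-- finite conditions on the generic part -/
def cnd (m : ℕ) : Set Oracle :=
  match (Encodable.decode m : Option (ℕ × Finset (List Bool))) with
  | some (N, F) => {g | ∀ s : List Bool, s.length ≤ N → (g s = true ↔ s ∈ F)}
  | none => univ

theorem cnd_aff (m : ℕ) : ASet (cnd m) := by
  unfold cnd
  split
  · rename_i N F _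
    rintro f hf g hg h hh s hs
    have h1 : f s = g s := Bool.eq_iff_iff.2 ((hf s hs).trans (hg s hs).symm)
    have h2 : h s = g s := Bool.eq_iff_iff.2 ((hh s hs).trans (hg s hs).symm)
    rw [show sum3 f g h s = x3 (f s) (g s) (h s) from rfl, h1, h2, x3_same]
    exact hg s hs
  · exact fun f _ g _ h _ => trivial

theorem exists_cnd (g : Oracle) (N : ℕ) :
    ∃ m, cnd m = {g' | ∀ s : List Bool, s.length ≤ N → g' s = g s} := by
  classical
  refine ⟨Encodable.encode (N, (List.finite_length_le Bool N).toFinset.filter fun s => g s = true),
    ?_⟩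
  unfold cnd
  rw [Encodable.encodek]
  ext g'
  simp only [mem_ofPred_eq, Finset.mem_filter, Set.Finite.mem_toFinset]
  refine forall_congr' fun s => forall_congr' fun hs => ?_
  constructor
  · intro h
    exact Bool.eq_iff_iff.2 (h.trans ⟨fun h' => h'.2, fun h' => ⟨hs, h'⟩⟩)
  · intro h
    rw [h]
    exact ⟨fun h' => ⟨hs, h'⟩, fun h' => h'.2⟩

/-! ### the class of questions -/

/-- affine functions that depend on finitely many values -/
def Lc : Set (Oracle → Bool) :=
  {φ | Aff φ ∧ ∃ N, ∀ g g' : Oracle, (∀ s : List Bool, s.length ≤ N → g s = g' s) → φ g = φ g'}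

theorem lc_const (b : Bool) : (fun _ => b) ∈ Lc :=
  ⟨fun _ _ _ => (x3_same' b b).symm, 0, fun _ _ _ => rfl⟩

theorem lc_coord (r : List Bool) : (fun g : Oracle => g r) ∈ Lc :=
  ⟨fun _ _ _ => rfl, r.length, fun _ _ h => h r le_rfl⟩

/-! ### the recursion -/

/-- a recursion on the length -/
theorem exists_fix {α : Type} [Inhabited α] (body : (List Bool → α) → List Bool → α)
    (hb : ∀ K₁ K₂ s, (∀ s' : List Bool, s'.length < s.length → K₁ s' = K₂ s') →
      body K₁ s = body K₂ s) : ∃ K : List Bool → α, ∀ s, K s = body K s := by
  let L : ℕ → List Bool → α := fun n => body^[n] fun _ => default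
  have hL : ∀ n, L (n + 1) = body (L n) := fun n => Function.iterate_succ_apply' _ _ _
  have key : ∀ k : ℕ, ∀ s : List Bool, s.length = k → ∀ m n, s.length < m → s.length < n →
      L m s = L n s := by
    intro k
    induction k using Nat.strong_induction_on with
    | _ k ih =>
      intro s hs m n hm hn
      obtain ⟨m, rfl⟩ : ∃ m', m = m' + 1 := ⟨m - 1, by omega⟩
      obtain ⟨n, rfl⟩ : ∃ n', n = n' + 1 := ⟨n - 1, by omega⟩
      rw [hL, hL]
      exact hb _ _ _ fun s' hs' => ih s'.length (by omega) s' rfl _ _ (by omega) (by omega)
  refine ⟨fun s => L (s.length + 1) s, fun s => ?_⟩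
  simp only
  rw [hL]
  exact hb _ _ _ fun s' hs' => key _ s' rfl _ _ (by omega) (by omega)

variable (X : Oracle)

/-- the oracle `O` or the algebraic oracle over `O` -/
noncomputable def lv (i : Bool) (O : Oracle) : Oracle := bif i then alg2 O else O

theorem lv_congr (i : Bool) {A A' : Oracle} {s : List Bool} (h : Agree s.length A A') :
    lv i A s = lv i A' s := by
  cases i
  · exact h s le_rfl
  · exact alg2_congr h

theorem lv_sum3 (i : Bool) (f g h : Oracle) (s : List Bool) :
    lv i (sum3 f g h) s = x3 (lv i f s) (lv i g s) (lv i h s) := by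
  cases i
  · rfl
  · exact alg2_sum3 f g h s

/-- the oracles for which the statement holds -/
def US (K : List Bool → Oracle → Bool) (e : ℕ) (q : List Bool) : Set Oracle :=
  {g | Tr (lv e.bodd (join X fun s => K s g)) e.div2 q}

/-- length of the statement -/
noncomputable def ln (e : ℕ) (q : List Bool) : ℕ := (stm e.div2 q).length

theorem US_congr {K₁ K₂ : List Bool → Oracle → Bool} {e : ℕ} {q : List Bool} {n : ℕ}
    (h : ∀ s : List Bool, s.length < n → K₁ s = K₂ s) (hn : 2 * ln e q ≤ n) :
    US X K₁ e q = US X K₂ e q := by
  ext g
  refine tr_congr fun s hs => lv_congr _ fun r hr => ?_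
  have hn' : 2 * (stm e.div2 q).length ≤ n := hn
  match r, hr with
  | [], _ => rfl
  | false :: r, _ => rfl
  | true :: r, hr =>
    rw [List.length_cons] at hr
    exact congrFun (h r (by omega)) g

/-- number of idle rounds -/
noncomputable def Jv (p : Prm) : ℕ := ln p.a p.q + ln p.b p.q

/-- number of questions -/
noncomputable def Rv (p : Prm) : ℕ := ln p.a p.q * (ln p.b p.q + 1)

/-- the state of the protocol -/
noncomputable def sp (K : List Bool → Oracle → Bool) (p : Prm) : Set Oracle :=
  stt Lc (US X K p.a p.q) (US X K p.b p.q) (Rv p) (cnd p.m) (p.h.take (p.h.length - Jv p))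

open Classical in
/-- the values of the oracle -/
noncomputable def body (K : List Bool → Oracle → Bool) (s : List Bool) : Oracle → Bool :=
  match s with
  | true :: true :: e => match rd e with
    | some p => if Jv p ≤ p.h.length then
        nx Lc (US X K p.a p.q) (US X K p.b p.q) (Rv p - (p.h.length - Jv p) - 1) (sp X K p)
      else fun _ => false
    | none => fun _ => false
  | true :: false :: e => match rd e with
    | some p => fun _ => decide (Jv p + Rv p ≤ p.h.length)
    | none => fun _ => false
  | false :: true :: e => match rd e with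
    | some p => if Jv p ≤ p.h.length then fun _ => decide (∃ g ∈ sp X K p, g ∈ US X K p.a p.q)
      else fun _ => false
    | none => fun _ => false
  | false :: false :: r => if ∃ w x : List Bool, w.length = x.length ∧ r = tc w x then
      fun g => g r else fun _ => false
  | _ => fun _ => false

theorem enc_length (p : Prm) : 2 * p.h.length ≤ (enc p).length := by
  rw [enc, tp_length]
  omega

theorem body_congr (K₁ K₂ : List Bool → Oracle → Bool) (s : List Bool)
    (h : ∀ s' : List Bool, s'.length < s.length → K₁ s' = K₂ s') : body X K₁ s = body X K₂ s := by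
  have key : ∀ (p : Prm), Jv p ≤ p.h.length → (enc p).length ≤ s.length →
      US X K₁ p.a p.q = US X K₂ p.a p.q ∧ US X K₁ p.b p.q = US X K₂ p.b p.q := by
    intro p hp hs
    have h1 := enc_length p
    unfold Jv at hp
    exact ⟨US_congr X h (by omega), US_congr X h (by omega)⟩
  unfold body
  split
  · rename_i e
    split
    · rename_i p hp
      split_ifs with hJ
      · obtain ⟨h1, h2⟩ := key p hJ (by
          rw [← rd_some hp, List.length_cons, List.length_cons]
          omega)
        unfold sp
        rw [h1, h2]
      · rfl
    · rfl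
  · rfl
  · rename_i e
    split
    · rename_i p hp
      split_ifs with hJ
      · obtain ⟨h1, h2⟩ := key p hJ (by
          rw [← rd_some hp, List.length_cons, List.length_cons]
          omega)
        unfold sp
        rw [h1, h2]
      · rfl
    · rfl
  · rfl
  · rfl

/-- the values of the oracle -/
noncomputable def KK : List Bool → Oracle → Bool :=
  (exists_fix (body X) (body_congr X)).choose

theorem KK_eq (s : List Bool) : KK X s = body X (KK X) s :=
  (exists_fix (body X) (body_congr X)).choose_spec s

theorem KK_mem (s : List Bool) : KK X s ∈ Lc := by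
  rw [KK_eq]
  unfold body
  split
  · split
    · split_ifs
      · exact nx_mem (lc_const false) _ _
      · exact lc_const _
    · exact lc_const _
  · split
    · exact lc_const _
    · exact lc_const _
  · split
    · split_ifs
      · exact lc_const _
      · exact lc_const _
    · exact lc_const _
  · split_ifs
    · exact lc_coord _
    · exact lc_const _
  · exact lc_const _

/-- the oracle with the generic part `g` -/
noncomputable def OO (g : Oracle) : Oracle := join X fun s => KK X s g

theorem OO_mem (r : List Bool) : (fun g => OO X g r) ∈ Lc := by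
  match r with
  | [] => exact lc_const false
  | false :: r => exact lc_const (X r)
  | true :: r => exact KK_mem X r

theorem OO_sum3 (f g h : Oracle) : OO X (sum3 f g h) = sum3 (OO X f) (OO X g) (OO X h) :=
  funext fun r => (OO_mem X r).1 f g h

/-- the two oracles with the generic part `g` -/
noncomputable def AA (i : Bool) (g : Oracle) : Oracle := lv i (OO X g)

theorem AA_mem (i : Bool) (r : List Bool) : (fun g => AA X i g r) ∈ Lc := by
  constructor
  · intro f g h
    simp only [AA]
    rw [OO_sum3, lv_sum3]
  · have h1 : ∀ s : List Bool, ∃ N, ∀ g g' : Oracle,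
        (∀ s : List Bool, s.length ≤ N → g s = g' s) → OO X g s = OO X g' s :=
      fun s => (OO_mem X s).2
    choose N hN using h1
    refine ⟨(List.finite_length_le Bool r.length).toFinset.sup N, fun g g' h => ?_⟩
    refine lv_congr i fun s hs => hN s g g' fun s' hs' => h s' (hs'.trans ?_)
    exact Finset.le_sup (f := N) ((List.finite_length_le Bool r.length).mem_toFinset.2 hs)

/-- the statement with index `e` for `q` -/
def Tq (g : Oracle) (e : ℕ) (q : List Bool) : Prop := Tr (AA X e.bodd g) e.div2 q

end ESY.Alg2
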